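import Pool.Agent.H244.Op5

/-!
# MP_0a0487_an: open factors of Anosov diffeomorphisms with global product structure

Let `f` be an Anosov diffeomorphism with global product structure of a closed manifold `M`, for
instance a hyperbolic automorphism of an infranilmanifold, and let `h` be a continuous open map (for
instance the projection of a fibre bundle, with fibres of any dimension) of `M` onto a closed
topological manifold `Y` which is a semiconjugacy from `f` to an expansive homeomorphism `k` of `Y`,
for instance to an Anosov diffeomorphism. Then `Y` is covered by Euclidean space.
-/

set_option autoImplicit false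

open scoped Manifold ContDiff Topology
open Set Filter

namespace Pool.Agent.Results.MP_0a0487_an.OpenExpansiveFactors

open Pool.Agent.H721R2 Pool.Agent.H789R2.AN Pool.Agent.TH289.K

/-- **Open expansive factors of Anosov diffeomorphisms with global product structure.**
Let `f` be a `C¹` Anosov diffeomorphism of a closed connected manifold `M` with global product
structure (`GPS`: each stable path and each unstable path with the same initial point span a
rectangle; for instance a hyperbolic automorphism of an infranilmanifold). Let `k` be an expansive
homeomorphism of a compact metrizable space `Y` and `h` a continuous open map of `M` onto `Y` with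
`h ∘ f = k ∘ h`; nothing is assumed on the fibres of `h`.

Then `k` is topologically transitive and has global product structure. If moreover `Y` is a
topological manifold (modelled on `E'`), for instance if `k` is an Anosov diffeomorphism of the
closed manifold `Y`, then `Y` is covered by Euclidean space: there is a covering map of `E'` onto
`Y`. -/
theorem result (E : Type*) [NormedAddCommGroup E] [NormedSpace ℝ E] [FiniteDimensional ℝ E]
    (M : Type*) [TopologicalSpace M] [T2Space M] [CompactSpace M] [ConnectedSpace M]
    [ChartedSpace E M] [IsManifold 𝓘(ℝ, E) ∞ M] (f : Diffeomorph 𝓘(ℝ, E) 𝓘(ℝ, E) M M 1)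
    (Es Eu : ∀ x : M, Submodule ℝ (TangentSpace 𝓘(ℝ, E) x)) (hf : IsAnosov f Es Eu)
    (hG : GPS f.toHomeomorph)
    (Y : Type*) [TopologicalSpace Y] [CompactSpace Y] [TopologicalSpace.MetrizableSpace Y]
    (k : Y ≃ₜ Y) (hk : Expansive k) (h : C(M, Y)) (hopen : IsOpenMap h)
    (hsurj : Function.Surjective h) (hfk : ∀ x, h (f x) = k (h x)) :
    TopTransitive k ∧ GPS k ∧
      ∀ (E' : Type*) [NormedAddCommGroup E'] [NormedSpace ℝ E'] [FiniteDimensional ℝ E']
        [ChartedSpace E' Y], ∃ π : E' → Y, IsCoveringMap π ∧ Function.Surjective π :=
  Pool.Agent.H244.Op.main f Es Eu hf hG k hk h h.continuous hopen hsurj hfk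

end Pool.Agent.Results.MP_0a0487_an.OpenExpansiveFactors
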