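import Pool.Agent.H827.AN.Man

/-!
# MP_0a0487_an: the universal cover is diffeomorphic to the standard Euclidean space

Let `f` be an Anosov diffeomorphism with global product structure of a closed smooth manifold `M`,
for instance a diffeomorphism topologically conjugate to a hyperbolic automorphism of an
infranilmanifold, where the smooth structure of `M` is not assumed to be the standard one. Then `M`
is covered by Euclidean space SMOOTHLY: the universal cover of `M` is not only homeomorphic but
diffeomorphic to `ℝⁿ` with its standard smooth structure. This is new in dimension four, where the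
universal cover could a priori be an exotic `ℝ⁴`.
-/

set_option autoImplicit false

open scoped Manifold ContDiff Topology
open Set Filter

namespace Pool.Agent.Results.MP_0a0487_an.SmoothlyCovered

open Pool.Agent.H721R2 Pool.Agent.H789R2.AN Pool.Agent.TH289.K

/-- **The universal cover is diffeomorphic to the standard Euclidean space.**
Let `M` be a closed connected smooth manifold of dimension `n` (any smooth structure) and let `f` be
a `C¹` Anosov diffeomorphism of `M` with global product structure (`GPS`: each stable path and each
unstable path with the same initial point span a rectangle).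

Then there is a covering map `q` of `ℝⁿ` onto `M` which is a local diffeomorphism of class `C^∞`,
`ℝⁿ` with its standard smooth structure; in other words the universal cover of `M` is diffeomorphic
to the standard `ℝⁿ`. -/
theorem result (n : ℕ) (M : Type) [TopologicalSpace M] [T2Space M] [CompactSpace M]
    [ConnectedSpace M] [ChartedSpace (EuclideanSpace ℝ (Fin n)) M] [IsManifold (𝓡 n) ∞ M]
    (f : Diffeomorph (𝓡 n) (𝓡 n) M M 1)
    (Es Eu : ∀ x : M, Submodule ℝ (TangentSpace (𝓡 n) x)) (hf : IsAnosov f Es Eu)
    (hG : GPS f.toHomeomorph) :
    ∃ q : EuclideanSpace ℝ (Fin n) → M,
      IsCoveringMap q ∧ Function.Surjective q ∧ IsLocalDiffeomorph (𝓡 n) (𝓡 n) ∞ q :=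
  Pool.Agent.H827.AN.man_smooth f Es Eu hf hG

end Pool.Agent.Results.MP_0a0487_an.SmoothlyCovered
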